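import Mathlib
import Pool.Agent.R586.MultiThr

/-!
# The classes of `(-1,1,t)`-threshold graphs are pairwise different

We prove that `C t ⊆ C t'` fails for all distinct `t, t' > 1`.
-/

open Filter Topology

namespace Pool.Agent.Results.MP_86beeb_co.DistinctClasses

/-- `G` is a `(θ 0, …, θ (k-1))`-threshold graph: there is a rank function `r` such that distinct
`v, w` are adjacent iff the number of `i` with `θ i ≤ r v + r w` is odd. -/
def IsMultiThreshold {k : ℕ} (θ : Fin k → ℝ) {V : Type*} (G : SimpleGraph V) : Prop :=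
  ∃ r : V → ℝ, ∀ v w : V, v ≠ w →
    (G.Adj v w ↔ Odd (Finset.univ.filter (fun i : Fin k => θ i ≤ r v + r w)).card)

/-- `C t` is the class of finite `(-1,1,t)`-threshold graphs (represented on the vertex sets
`Fin n`). -/
def C (t : ℝ) : Set (Σ n : ℕ, SimpleGraph (Fin n)) :=
  {G | IsMultiThreshold ![-1, 1, t] G.2}

open Pool.Agent.R586.MultiThr

lemma odd_iff {t s : ℝ} (ht : 1 < t) :
    Odd (Finset.univ.filter (fun i : Fin 3 => (![-1, 1, t] : Fin 3 → ℝ) i ≤ s)).card ↔ E t s := by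
  rw [Finset.card_filter, Fin.sum_univ_three]
  simp only [Matrix.cons_val_zero, Matrix.cons_val_one, Matrix.cons_val]
  unfold E
  by_cases h1 : -1 ≤ s
  · by_cases h2 : 1 ≤ s
    · by_cases h3 : t ≤ s
      · simp only [h1, h2, h3, if_true]
        exact ⟨fun _ => Or.inr trivial, fun _ => by decide⟩
      · simp only [h1, h2, h3, if_true, if_false]
        constructor
        · intro h; exact absurd h (by decide)
        · rintro (h | h)
          · linarith [h.2]
          · exact h.elim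
    · have h3 : ¬ t ≤ s := fun h => h2 (by linarith)
      simp only [h1, h2, h3, if_true, if_false]
      exact ⟨fun _ => Or.inl ⟨trivial, not_le.1 h2⟩, fun _ => by decide⟩
  · have h2 : ¬ 1 ≤ s := fun h => h1 (by linarith)
    have h3 : ¬ t ≤ s := fun h => h2 (by linarith)
    simp only [h1, h2, h3, if_false]
    constructor
    · intro h; exact absurd h (by decide)
    · rintro (h | h)
      · exact h.1.elim
      · exact h.elim

lemma isMT_iff {t : ℝ} (ht : 1 < t) {V : Type*} (G : SimpleGraph V) :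
    IsMultiThreshold ![-1, 1, t] G ↔
      ∃ r : V → ℝ, ∀ v w : V, v ≠ w → (G.Adj v w ↔ E t (r v + r w)) := by
  unfold IsMultiThreshold
  refine exists_congr fun r => ?_
  refine forall_congr' fun v => forall_congr' fun w => ?_
  rw [odd_iff ht]

/-- Representations of the finite induced subgraphs. -/
lemma finite_rep {t t' : ℝ} (ht : 1 < t) (ht' : 1 < t') (h : C t ⊆ C t') (S : Finset ℝ) :
    ∃ r : ℝ → ℝ, ∀ x ∈ S, ∀ y ∈ S, x ≠ y → (E t (x + y) ↔ E t' (r x + r y)) := by
  classical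
  let e : Fin S.card ≃ S := S.equivFin.symm
  let G : SimpleGraph (Fin S.card) :=
    { Adj := fun i j => i ≠ j ∧ E t ((e i : ℝ) + (e j : ℝ))
      symm := ⟨fun i j hij => ⟨hij.1.symm, by rw [add_comm]; exact hij.2⟩⟩
      loopless := ⟨fun i hi => hi.1 rfl⟩ }
  have hG : (⟨S.card, G⟩ : Σ n : ℕ, SimpleGraph (Fin n)) ∈ C t := by
    change IsMultiThreshold ![-1, 1, t] G
    rw [isMT_iff ht]
    exact ⟨fun i => (e i : ℝ), fun v w hvw => ⟨fun h => h.2, fun h => ⟨hvw, h⟩⟩⟩
  have hG' := h hG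
  change IsMultiThreshold ![-1, 1, t'] G at hG'
  rw [isMT_iff ht'] at hG'
  obtain ⟨r, hr⟩ := hG'
  refine ⟨fun x => if hx : x ∈ S then r (e.symm ⟨x, hx⟩) else 0, fun x hx y hy hxy => ?_⟩
  simp only [hx, hy, dif_pos]
  have hne : e.symm ⟨x, hx⟩ ≠ e.symm ⟨y, hy⟩ := by
    intro h
    apply hxy
    have := e.symm.injective h
    exact congrArg Subtype.val this
  rw [← hr _ _ hne]
  change _ ↔ (_ ∧ E t ((e (e.symm ⟨x, hx⟩) : ℝ) + (e (e.symm ⟨y, hy⟩) : ℝ)))
  rw [Equiv.apply_symm_apply, Equiv.apply_symm_apply]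
  exact ⟨fun h => ⟨hne, h⟩, fun h => h.2⟩

lemma germE {ι : Type*} (V : Ultrafilter ι) (f g : ι → ℝ) (t' : ℝ) :
    E (K := Germ (V : Filter ι) ℝ) ((fun _ => t' : ι → ℝ) : Germ (V : Filter ι) ℝ)
      ((f : Germ (V : Filter ι) ℝ) + (g : Germ (V : Filter ι) ℝ)) ↔
    ∀ᶠ S in (V : Filter ι), E t' (f S + g S) := by
  unfold E
  rw [Ultrafilter.eventually_or, eventually_and]
  have h1 : (-1 : Germ (V : Filter ι) ℝ) ≤ (f : Germ (V : Filter ι) ℝ) + g ↔
      ∀ᶠ S in (V : Filter ι), -1 ≤ f S + g S := Germ.coe_le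
  have h2 : (f : Germ (V : Filter ι) ℝ) + g < 1 ↔
      ∀ᶠ S in (V : Filter ι), f S + g S < 1 := Germ.coe_lt
  have h3 : ((fun _ => t' : ι → ℝ) : Germ (V : Filter ι) ℝ) ≤ (f : Germ (V : Filter ι) ℝ) + g ↔
      ∀ᶠ S in (V : Filter ι), t' ≤ f S + g S := Germ.coe_le
  rw [h1, h2, h3]

lemma exists_rep {t t' : ℝ} (ht : 1 < t) (ht' : 1 < t') (h : C t ⊆ C t') :
    ∃ (V : Ultrafilter (Finset ℝ)) (φ : ℝ → Germ (V : Filter (Finset ℝ)) ℝ),
      Rep t ((fun _ => t' : Finset ℝ → ℝ) : Germ (V : Filter (Finset ℝ)) ℝ) φ := by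
  choose r hr using finite_rep ht ht' h
  refine ⟨Ultrafilter.of atTop, fun x => ((fun S => r S x : Finset ℝ → ℝ) : Germ _ ℝ), ?_⟩
  intro x y hxy
  rw [germE]
  have h1 : ∀ᶠ S in (Ultrafilter.of (atTop : Filter (Finset ℝ)) : Filter (Finset ℝ)),
      (E t (x + y) ↔ E t' (r S x + r S y)) := by
    have h2 : ∀ᶠ S in (atTop : Filter (Finset ℝ)), {x, y} ⊆ S := eventually_ge_atTop {x, y}
    filter_upwards [Ultrafilter.of_le _ h2] with S hS
    exact hr S x (hS (by simp)) y (hS (by simp)) hxy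
  constructor
  · intro h2
    filter_upwards [h1] with S hS
    exact hS.1 h2
  · intro h2
    obtain ⟨S, h3, h4⟩ := (h1.and h2).exists
    exact h3.2 h4

theorem eq_of_subset {t t' : ℝ} (ht : 1 < t) (ht' : 1 < t') (h : C t ⊆ C t') : t = t' := by
  obtain ⟨V, φ, H⟩ := exists_rep ht ht' h
  set s : Germ (V : Filter (Finset ℝ)) ℝ :=
    ((fun _ => t' : Finset ℝ → ℝ) : Germ (V : Filter (Finset ℝ)) ℝ) with hs
  have hs1 : 1 < s := by
    have : (1 : Germ (V : Filter (Finset ℝ)) ℝ) < s ↔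
      ∀ᶠ S in (V : Filter (Finset ℝ)), 1 < t' := Germ.coe_lt
    rw [this]
    exact Eventually.of_forall fun _ => ht'
  have hU : ((Ultrafilter.of (𝓝[>] (0 : ℝ))) : Filter ℝ) ≤ 𝓝[>] 0 := Ultrafilter.of_le _
  rcases lt_trichotomy t t' with h1 | h1 | h1
  · exfalso
    obtain ⟨q, hq1, hq2⟩ := exists_rat_btwn (show (t + 1) / 2 < (t' + 1) / 2 by linarith)
    have hq0 : 0 < q := by
      have : (0 : ℝ) < q := by linarith
      exact_mod_cast this
    have hnum : ((q.num.toNat : ℕ) : ℝ) = q * q.den := by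
      have h2 : ((q.num.toNat : ℕ) : ℤ) = q.num := Int.toNat_of_nonneg (Rat.num_pos.2 hq0).le
      have h3 : ((q.num : ℤ) : ℝ) = q * q.den := by
        have := Rat.mul_den_eq_num q
        exact_mod_cast this.symm
      have h4 : (((q.num.toNat : ℕ) : ℤ) : ℝ) = ((q.num : ℤ) : ℝ) := by rw [h2]
      rw [← h3, ← h4]
      exact (Int.cast_natCast _).symm
    have hden : (0 : ℝ) < q.den := by exact_mod_cast q.den_pos
    obtain ⟨j, hj⟩ := exists_nat_ge ((t' + 1) / (q.den * (t' + 1) - q.num.toNat * 2))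
    have hpos : 0 < (q.den : ℝ) * (t' + 1) - q.num.toNat * 2 := by
      rw [hnum]
      nlinarith
    refine ratio1 (m := q.den) (n := q.num.toNat) (j := j) hU ht hs1 H ?_ ?_
    · rw [hnum]
      nlinarith
    · have h5 : t' + 1 ≤ (j : ℝ) * (q.den * (t' + 1) - q.num.toNat * 2) := by
        rw [div_le_iff₀ hpos] at hj
        exact hj
      have h6 : s + 1 ≤ (j : Germ (V : Filter (Finset ℝ)) ℝ) * (q.den * (s + 1) - q.num.toNat * 2) ↔
          ∀ᶠ S in (V : Filter (Finset ℝ)),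
            t' + 1 ≤ (j : ℝ) * (q.den * (t' + 1) - q.num.toNat * 2) := Germ.coe_le
      rw [h6]
      exact Eventually.of_forall fun _ => h5
  · exact h1
  · exfalso
    obtain ⟨q, hq1, hq2⟩ := exists_rat_btwn (show (t' + 1) / 2 < (t + 1) / 2 by linarith)
    have hq0 : 0 < q := by
      have : (0 : ℝ) < q := by linarith
      exact_mod_cast this
    have hnum : ((q.num.toNat : ℕ) : ℝ) = q * q.den := by
      have h2 : ((q.num.toNat : ℕ) : ℤ) = q.num := Int.toNat_of_nonneg (Rat.num_pos.2 hq0).le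
      have h3 : ((q.num : ℤ) : ℝ) = q * q.den := by
        have := Rat.mul_den_eq_num q
        exact_mod_cast this.symm
      have h4 : (((q.num.toNat : ℕ) : ℤ) : ℝ) = ((q.num : ℤ) : ℝ) := by rw [h2]
      rw [← h3, ← h4]
      exact (Int.cast_natCast _).symm
    have hden : (0 : ℝ) < q.den := by exact_mod_cast q.den_pos
    obtain ⟨j, hj⟩ := exists_nat_ge ((t' + 1) / (q.num.toNat * 2 - q.den * (t' + 1)))
    have hpos : 0 < (q.num.toNat : ℝ) * 2 - q.den * (t' + 1) := by
      rw [hnum]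
      nlinarith
    refine ratio2 (m := q.den) (n := q.num.toNat) (j := j) hU ht hs1 H ?_ ?_
    · rw [hnum]
      nlinarith
    · have h5 : t' + 1 ≤ (j : ℝ) * (q.num.toNat * 2 - q.den * (t' + 1)) := by
        rw [div_le_iff₀ hpos] at hj
        exact hj
      have h6 : s + 1 ≤ (j : Germ (V : Filter (Finset ℝ)) ℝ) * (q.num.toNat * 2 - q.den * (s + 1)) ↔
          ∀ᶠ S in (V : Filter (Finset ℝ)),
            t' + 1 ≤ (j : ℝ) * (q.num.toNat * 2 - q.den * (t' + 1)) := Germ.coe_le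
      rw [h6]
      exact Eventually.of_forall fun _ => h5

/-- For distinct reals `t, t' > 1` neither of the classes `C t`, `C t'` contains the other; in
particular there are no distinct reals `t, t' > 1` with `C t = C t'`. -/
theorem result :
    (∀ t t' : ℝ, 1 < t → 1 < t' → t ≠ t' → ¬ C t ⊆ C t') ∧
    ¬ ∃ t t' : ℝ, 1 < t ∧ 1 < t' ∧ t ≠ t' ∧ C t = C t' := by
  refine ⟨fun t t' ht ht' hne h => hne (eq_of_subset ht ht' h), ?_⟩
  rintro ⟨t, t', ht, ht', hne, h⟩
  exact hne (eq_of_subset ht ht' h.le)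

end Pool.Agent.Results.MP_86beeb_co.DistinctClasses
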